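import Pool.Agent.Helper729.WR.Main

/-!
# Width function and curvature ratio determine a smooth convex body of three-space
-/

set_option autoImplicit false

namespace Pool.Agent.Results.MP_4a4b50_gt.DimensionThree

section Definitions

variable {E : Type*} [NormedAddCommGroup E] [InnerProductSpace ℝ E]

/-- The support function `h_K(u)`, the largest value of `⟨x, u⟩` for `x` in `K`. -/
noncomputable def supp (K : Set E) (u : E) : ℝ := sSup ((fun x => inner ℝ x u) '' K)

/-- The width function. -/
noncomputable def width (K : Set E) (u : E) : ℝ := supp K u + supp K (-u)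

/-- The derivative of `h` at `x` in the direction `v`. -/
noncomputable def dir (h : E → ℝ) (v x : E) : ℝ := fderiv ℝ h x v

/-- The second derivative of `h` at `x` in the directions `v` and `w`. -/
noncomputable def dir2 (h : E → ℝ) (v w x : E) : ℝ := dir (dir h v) w x

/-- The product of the principal radii of curvature of the boundary of `K` at the point with outer
unit normal `u`: the determinant of the second derivative at `u` of the support function, restricted
to the orthogonal complement of `u` and written in the orthonormal basis `b` of this complement. -/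
noncomputable def radii (K : Set E) (u : E) (b : Fin 2 → E) : ℝ :=
  Matrix.det (Matrix.of fun i j => dir2 (supp K) (b i) (b j) u)

/-- The Gaussian curvature of the boundary of `K` at the point with outer unit normal `u`. -/
noncomputable def tau (K : Set E) (u : E) (b : Fin 2 → E) : ℝ := (radii K u b)⁻¹

/-- Convex bodies of class `C^3_+`, described by the support function. -/
structure ClassPlus (K : Set E) : Prop where
  convex : Convex ℝ K
  compact : IsCompact K
  interior_nonempty : (interior K).Nonempty
  smooth : ContDiffOn ℝ 3 (supp K) {0}ᶜ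
  pos : ∀ u v : E, ‖u‖ = 1 → v ≠ 0 → inner ℝ v u = 0 → 0 < dir2 (supp K) v v u

/-- The width functions agree on the unit sphere. -/
def SameWidth (H K : Set E) : Prop := ∀ u : E, ‖u‖ = 1 → width H u = width K u

/-- The curvature ratios agree at every unit vector `u` (the basis `b` of the orthogonal
complement of `u` is arbitrary). -/
def SameRatio (H K : Set E) : Prop :=
  ∀ (u : E) (b : Fin 2 → E), ‖u‖ = 1 → Orthonormal ℝ b → (∀ i, inner ℝ (b i) u = 0) →
    tau H (-u) b * tau K u b = tau K (-u) b * tau H u b

/-- `H` is a translate of `K`. -/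
def IsTranslate (H K : Set E) : Prop := ∃ a : E, H = (fun x => x + a) '' K

end Definitions

open WRatio in
theorem dir2_eq (h : EE 3 → ℝ) (hh : ContDiffOn ℝ 3 h {0}ᶜ) (x : EE 3) (hx : x ≠ 0) (v w : EE 3) :
    dir2 h v w x = hess h x w v := by
  have hmem : ({0}ᶜ : Set (EE 3)) ∈ nhds x := isOpen_compl_singleton.mem_nhds hx
  have h1 : ContDiffAt ℝ 3 h x := hh.contDiffAt hmem
  have h2 : ContDiffAt ℝ 2 (fderiv ℝ h) x := h1.fderiv_right (by norm_num)
  have h3 : DifferentiableAt ℝ (fderiv ℝ h) x := h2.differentiableAt (by norm_num)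
  unfold dir2 dir hess
  have h4 := h3.hasFDerivAt.clm_apply (hasFDerivAt_const v x)
  rw [h4.fderiv]
  simp

open WRatio in
theorem radii_eq (K : Set (EE 3)) (hs : ContDiffOn ℝ 3 (WRatio.supp K) {0}ᶜ) (u : EE 3) (hu : ‖u‖ = 1)
    (b : Fin 2 → EE 3) (hb : Orthonormal ℝ b) (hbu : ∀ i, inner ℝ (b i) u = 0) :
    radii K u b = e2 (hess (WRatio.supp K) u) := by
  have hu0 : u ≠ 0 := by
    intro h
    rw [h, norm_zero] at hu
    exact zero_ne_one hu
  have hsym : ∀ v w, hess (WRatio.supp K) u v w = hess (WRatio.supp K) u w v := fun v w =>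
    hess_symm _ hs u hu0 v w
  have hker : ∀ v, hess (WRatio.supp K) u u v = 0 := fun v =>
    hess_kernel _ hs (fun t ht x => supp_hom K t ht x) u hu0 v
  have h1 := minor_eq (hess (WRatio.supp K) u) hsym u hker (b 0) (b 1)
  have h2 := det3_sq u (b 0) (b 1) hu (hb.1 0) (hb.1 1)
    (by rw [real_inner_comm]; exact hbu 0) (by rw [real_inner_comm]; exact hbu 1)
    (hb.2 (by decide))
  rw [hu, h2] at h1
  unfold radii
  rw [Matrix.det_fin_two]
  simp only [Matrix.of_apply]
  change dir2 (WRatio.supp K) (b 0) (b 0) u * dir2 (WRatio.supp K) (b 1) (b 1) u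
    - dir2 (WRatio.supp K) (b 0) (b 1) u * dir2 (WRatio.supp K) (b 1) (b 0) u = _
  rw [dir2_eq _ hs u hu0, dir2_eq _ hs u hu0, dir2_eq _ hs u hu0, dir2_eq _ hs u hu0,
    hsym (b 1) (b 0)]
  linarith

open WRatio in
theorem toPlus (K : Set (EE 3)) (hK : ClassPlus K) : WRatio.ClassPlus 3 K where
  convex := hK.convex
  compact := hK.compact
  interior_nonempty := hK.interior_nonempty
  smooth := hK.smooth
  pos := by
    intro u hu v hv hvu
    have hu0 : u ≠ 0 := by
      intro h
      rw [h, norm_zero] at hu
      exact zero_ne_one hu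
    have h1 := hK.pos u v hu hv hvu
    have h2 := dir2_eq (WRatio.supp K) hK.smooth u hu0 v v
    change 0 < dir2 (WRatio.supp K) v v u at h1
    rwa [h2] at h1

open WRatio in
/-- Convex bodies of class `C^3_+` in `ℝ³` with equal width functions and equal curvature ratios
are translates of each other. -/
theorem result (H K : Set (EuclideanSpace ℝ (Fin 3))) (hH : ClassPlus H) (hK : ClassPlus K)
    (hw : SameWidth H K) (hτ : SameRatio H K) : IsTranslate H K := by
  refine WRatio.main H K (toPlus H hH) (toPlus K hK) (fun u hu => hw u hu) ?_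
  intro u hu
  obtain ⟨b0, hb0, hb0u, -⟩ := exists_b u u
  obtain ⟨b1, hb1, hb1u, hb10⟩ := exists_b u b0
  have hon : Orthonormal ℝ ![b0, b1] := by
    rw [orthonormal_iff_ite]
    intro i j
    fin_cases i <;> fin_cases j
    · simp [hb0]
    · simp [real_inner_comm b1 b0, hb10]
    · simp [hb10]
    · simp [hb1]
  have hperp : ∀ i, inner ℝ (![b0, b1] i) u = 0 := by
    intro i
    fin_cases i
    · simpa using hb0u
    · simpa using hb1u
  have hperp' : ∀ i, inner ℝ (![b0, b1] i) (-u) = 0 := by
    intro i
    rw [inner_neg_right, hperp i, neg_zero]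
  have hnu : ‖-u‖ = 1 := by rw [norm_neg]; exact hu
  have key := hτ u ![b0, b1] hu hon hperp
  unfold tau at key
  rw [radii_eq H hH.smooth (-u) hnu _ hon hperp', radii_eq K hK.smooth u hu _ hon hperp,
    radii_eq K hK.smooth (-u) hnu _ hon hperp', radii_eq H hH.smooth u hu _ hon hperp] at key
  unfold WRatio.tau
  rw [prod_e2 H (toPlus H hH) (-u) hnu, prod_e2 K (toPlus K hK) u hu,
    prod_e2 K (toPlus K hK) (-u) hnu, prod_e2 H (toPlus H hH) u hu]
  exact key

end Pool.Agent.Results.MP_4a4b50_gt.DimensionThree
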